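import Pool.Agent.H2.BT7
import Pool.Agent.H2.BoxDefs

namespace Pool.Agent.Results.MP_99d66e_al.NoSOS

open Pool.Agent.H2.Box

open Pool.Agent.H2.BT in
theorem result : ∃ (E : Type) (_ : NormedAddCommGroup E) (_ : InnerProductSpace ℂ E)
    (_ : CompleteSpace E) (b : HilbertBasis ℕ ℂ E) (G : SimpleGraph ℕ) (l : ℕ → ℕ)
    (L : E →L[ℂ] E), IsBox G l ∧ IsLap b G L ∧ GapAll (FinProp b G) L ∧
      ¬ SOSGap (FinProp b G) L := by
  have hs := gen_inv x0_rel σ1_sq
  have e : FinProp b0 (gr (gen x0 σ1)) = (· ∈ PS (gr (gen x0 σ1))) := by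
    funext T
    simp only [FinProp, ent, b0_apply]
    rfl
  refine ⟨l2, inferInstance, inferInstance, inferInstance, b0, gr (gen x0 σ1), lev,
    ∑ i, (1 - U (gen x0 σ1 i)),
    ⟨⟨13, fun v => ?_⟩, fun a b h => (reach_lev hs lev lev_gen1 h.reachable).symm,
    fun i => (lev_fin i).subset fun v h => le_of_eq h,
    Filter.tendsto_atTop_mono lev_card Filter.tendsto_id⟩, ?_, ?_, ?_⟩
  · rw [gr_nb hs]
    refine ⟨(Finset.finite_toSet _).image _,
      (Set.ncard_image_le (Finset.finite_toSet _)).trans ?_⟩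
    rw [Set.ncard_coe_finset]
    exact (Finset.card_le_univ _).trans (by simp)
  · simp only [IsLap, ent, b0_apply]
    exact ⟨entry_diag hs gen_inj1, entry_adj hs gen_inj1, entry_off hs⟩
  · rw [e]
    exact ⟨1 / 2, by norm_num, fun H _ _ _ π h =>
      geomT _ x0 σ1 g0 lev x0_rel σ1_sq g0_mem (mem_WS hs) lev_sw lev_fin orb1 gh1 H π
        h.1 h.2.1 h.2.2.1 h.2.2.2⟩
  · rw [e]
    exact noSOS x0 σ1 g0 lev x0_rel σ1_sq g0_mem lev_gen1 lev_fin gh1 far1

end Pool.Agent.Results.MP_99d66e_al.NoSOS
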